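import Pool.Agent.W761.Box.Main

/-!
# Pointwise convergence of multi-parameter multiple ergodic averages of Gaussian actions

`IsGaussianAction μ T`: `T` is an action of `ℤ^d` by invertible bi-measurable maps preserving the
probability measure `μ`, and some linear space of centered Gaussian random variables is invariant
modulo null sets under the action and generates the σ-algebra modulo null sets.

`IsFactor μ T ν R`: some measure preserving `π : X → Y` satisfies `π (T i x) = R i (π x)` almost
everywhere.

No assumption is made on the spectral type, on ergodicity or on mixing.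
-/

set_option autoImplicit false

open Filter Topology MeasureTheory
open scoped ENNReal

namespace Pool.Agent.Results.MP_f720ae_an.GaussianBoxes

open Pool.Agent.W761.Gauss

/-- Let `T` be a Gaussian action of `ℤ^d` and `R` a factor of it (for example, `T` itself), let
`P_ij ∈ ℤ[m_1, …, m_k]` be polynomials of degree at most one (arbitrary constant terms) and
`f_1, …, f_n ∈ L^∞`. Then for almost every `y` the averages of
`∏_j f_j (R_1^(P_1j(m)) ⋯ R_d^(P_dj(m)) y)` over the boxes `[0, M_1) × ⋯ × [0, M_k)` converge as
`min M_i → ∞` (unrestricted boxes). -/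
theorem result (d k n : ℕ) {X Y : Type} [MeasurableSpace X] [MeasurableSpace Y] (μ : Measure X)
    [IsProbabilityMeasure μ] (ν : Measure Y) (T : Fin d → Equiv.Perm X)
    (R : Fin d → Equiv.Perm Y) (hT : IsGaussianAction μ T)
    (hRm : ∀ i, Measurable (R i).symm) (hR : ∀ i, MeasurePreserving (R i) ν ν)
    (hfac : IsFactor μ T ν R) (P : Fin d → Fin n → MvPolynomial (Fin k) ℤ)
    (hP : ∀ i j, (P i j).totalDegree ≤ 1) (f : Fin n → Y → ℂ) (hf : ∀ j, MemLp (f j) ∞ ν) :
    ∀ᵐ y ∂ν, ∃ L : ℂ, Tendsto
      (fun M : Fin k → ℕ => (∏ j, (M j : ℂ))⁻¹ *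
        ∑ m ∈ Fintype.piFinset (fun j => Finset.range (M j)),
          ∏ j : Fin n, f j ((List.ofFn fun i : Fin d =>
            R i ^ (MvPolynomial.eval (fun l => ((m l : ℕ) : ℤ)) (P i j))).prod y))
      atTop (𝓝 L) :=
  Pool.Agent.W761.Box.gaussian_factor_conv hT hRm hR hfac P hP hf

end Pool.Agent.Results.MP_f720ae_an.GaussianBoxes
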